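import Pool.Agent.N641.VB.Stm4
import Pool.Agent.N641.VB.Main
import Pool.Agent.N619.VB.EX3

set_option autoImplicit false

/-!
# Project VB (helper641), part FT3 (helper697): structures interpreted in an algebra have finitely
many types
-/

namespace Pool.Agent.N697.VB

open FirstOrder FirstOrder.Language Pool.Agent.N641.VB

/-- the cells of an extended tuple are below the cells of the tuple -/
theorem cell_le {A : Type} [BooleanAlgebra A] {n N : ℕ} (q : Fin n → A) (X : Fin N → A)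
    (i : Fin n → Fin N) (h : ∀ j, X (i j) = q j) (ε : Fin N → Bool) :
    cell X ε ≤ cell q (fun j => ε (i j)) := by
  unfold cell
  refine Finset.le_inf fun j _ => ?_
  refine (Finset.inf_le (Finset.mem_univ (i j))).trans (le_of_eq ?_)
  simp only [h j]

/-- finitely many families of types of cells -/
theorem fin_range {M : Type} [AddCommMonoid M] {A : Type} [BooleanAlgebra A] {mu : A → M}
    (hm : AM mu) {n N : ℕ} {ι : Type} (q : Fin n → A) (X : ι → Fin N → A)
    (i : Fin n → Fin N) (h : ∀ s j, X s (i j) = q j)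
    (hf : ∀ ε, (Dv (ft mu (cell q ε))).Finite) :
    (Set.range fun (s : ι) (ε : Fin N → Bool) => ft mu (cell (X s) ε)).Finite := by
  refine (Set.Finite.pi (fun ε : Fin N → Bool => hf (fun j => ε (i j)))).subset ?_
  rintro _ ⟨s, rfl⟩ ε _
  exact ft_dv hm (cell_le q (X s) i (h s) ε)

theorem FT3 (TM3 : S_TM3) (TM4 : S_TM4) : S_FT3 := by
  intro L M _ _ σ S bo mu q p g f hB hA hfin k
  have hPB : @Pool.Agent.N619.VB.PB L M σ S ℕ bo mu q g :=
    @Pool.Agent.N619.VB.PB.mk L M σ S ℕ bo mu q g hB.inj hB.uni hB.rel hB.fun_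
  let e : Fin σ.n' ⊕ Fin k × Fin σ.r ≃ Fin (σ.n' + k * σ.r) :=
    (Equiv.sumCongr (Equiv.refl _) finProdFinEquiv).trans finSumFinEquiv
  let Y : (Fin k → ℕ) → Fin σ.n' ⊕ Fin k × Fin σ.r → ℕ :=
    fun s => Sum.elim q fun x => g (s x.1) x.2
  let X : (Fin k → ℕ) → Fin (σ.n' + k * σ.r) → ℕ := fun s i => Y s (e.symm i)
  have hX : ∀ s, X s ∘ e = Y s := by
    intro s
    funext i
    change Y s (e.symm (e i)) = Y s i
    rw [e.symm_apply_apply]
  have key : ∀ (χ : L.Formula (Fin k)) (s s' : Fin k → ℕ),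
      (∀ ε, @ft M ℕ bo mu (@cell ℕ bo _ (X s) ε) = @ft M ℕ bo mu (@cell ℕ bo _ (X s') ε)) →
      @Formula.Realize L ℕ S _ χ s → @Formula.Realize L ℕ S _ χ s' := by
    intro χ s s' hss
    obtain ⟨χ', hχ'⟩ := Pool.Agent.N619.VB.trx TM3 σ k χ
    obtain ⟨j, hj⟩ := TM4 M (σ.n' + k * σ.r) (χ'.relabel e)
    have h1 := @hj ℕ ℕ bo bo mu mu (X s) (X s') hA hA (fun ε => congrFun (hss ε) j)
    have r1 := @Formula.realize_relabel (LM M) ℕ (str bo.le mu) _ _ χ' e (X s)
    have r2 := @Formula.realize_relabel (LM M) ℕ (str bo.le mu) _ _ χ' e (X s')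
    rw [hX] at r1 r2
    have t1 := @hχ' S ℕ bo mu q g hPB s
    have t2 := @hχ' S ℕ bo mu q g hPB s'
    intro h
    exact t2.2 (r2.1 (h1.1 (r1.2 (t1.1 h))))
  have hfr := @fin_range M _ ℕ bo mu hA σ.n' _ (Fin k → ℕ) q X (fun j => e (Sum.inl j))
    (by
      intro s j
      change Y s (e.symm (e (Sum.inl j))) = q j
      rw [e.symm_apply_apply]
      rfl) hfin
  let G : ((Fin (σ.n' + k * σ.r) → Bool) → FT M) → Set (L.Formula (Fin k)) := fun φ =>
    {χ | ∃ s, (fun ε => @ft M ℕ bo mu (@cell ℕ bo _ (X s) ε)) = φ ∧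
      @Formula.Realize L ℕ S _ χ s}
  refine (hfr.image G).subset ?_
  rintro t ⟨v, rfl⟩
  refine ⟨_, ⟨v, rfl⟩, ?_⟩
  ext χ
  constructor
  · rintro ⟨s, hs, h⟩
    exact key χ s v (fun ε => congrFun hs ε) h
  · intro h
    exact ⟨v, rfl, h⟩

end Pool.Agent.N697.VB
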